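import Pool.Agent.X185.CT.Final

set_option autoImplicit false

/-! MP_f91e0f_al: the preimage of the non-conical limit points (dynamical definition) under a
Cannon-Thurston map of a free subgroup of a hyperbolic group has dimension zero. -/

namespace Pool.Agent.Results.MP_f91e0f_al.NonConicalDimZero

open Pool.Agent.H322R3.Hyp Pool.Agent.X185.CT

/-- Let `Γ` be a word-hyperbolic group with finite generating set `S`, let `i : F_r → Γ` be an
injective homomorphism with Cannon-Thurston map `f : ∂F_r → ∂Γ`. Let `T` be a tree with a proper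
cocompact isometric action of `F_r`, `x0` a point of `T` and `a > 1`. Then the set of all
`p ∈ ∂F_r` for which `f p` is not conical for `F_r` (dynamical definition: no `h n ∈ F_r` and
`a ≠ b` with `h n · z → a` and `h n · y → b` for all `y ≠ z`) has Hausdorff dimension zero for the
visual metric with parameter `a` based at `x0`. -/
theorem result {r : ℕ} {Γ : Type*} [Group Γ] (S : Set Γ) (hfin : S.Finite)
    (hS : Subgroup.closure S = ⊤) (hyp : IsHyperbolic S)
    (i : FreeGroup (Fin r) →* Γ) (hi : Function.Injective i)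
    (f : Bdy r → Boundary S) (hf : IsCT S i f)
    {T : Type*} [MetricSpace T] [MulAction (FreeGroup (Fin r)) T] (hT : IsTreeAction r T)
    (x0 : T) (a : ℝ) (ha : 1 < a) [MetricSpace (Bdy r)] (hvis : IsVisual (r := r) x0 a) :
    dimH {p : Bdy r | ¬ ConicalDyn hS i (f p)} = 0 := by
  obtain ⟨δ, hδ0, hδ⟩ := hyp.base hS
  obtain ⟨C, ρ, hC, hρ0, hρ1, hdist⟩ := visual_bound hT x0 ha hvis
  exact dimH_far hS hδ0 hδ hfin hi hC hρ0 hρ1 hdist _
    (fun p hp => far_of_dyn hS hδ0 hδ hf hfin hp)

end Pool.Agent.Results.MP_f91e0f_al.NonConicalDimZero
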